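import Pool.Agent.helper90.KS.Spec

/-!
# MP_26dbae_co, module MO (moments)
-/

set_option autoImplicit false

open scoped BigOperators

namespace Pool.Agent.KS

noncomputable section

open Classical

theorem MO_pow {V : Type} (S : Finset V) (f : V → ℕ) (s : ℕ) (hs : 1 ≤ s) :
    (∑ v ∈ S, f v) ^ s ≤ S.card ^ (s - 1) * ∑ v ∈ S, f v ^ s := by
  induction s, hs using Nat.le_induction with
  | base => simp
  | succ s hs ih =>
    have h1 : (∑ v ∈ S, f v ^ s) * (∑ v ∈ S, f v) ≤ S.card * ∑ v ∈ S, f v ^ s * f v := by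
      have hm : MonovaryOn (fun v => f v ^ s) f S := by
        intro i _ j _ hij
        exact Nat.pow_le_pow_left hij.le s
      exact hm.sum_mul_sum_le_card_mul_sum
    have h2 : s + 1 - 1 = (s - 1) + 1 := by omega
    calc (∑ v ∈ S, f v) ^ (s + 1) = (∑ v ∈ S, f v) ^ s * ∑ v ∈ S, f v := pow_succ _ _
      _ ≤ (S.card ^ (s - 1) * ∑ v ∈ S, f v ^ s) * ∑ v ∈ S, f v := Nat.mul_le_mul_right _ ih
      _ = S.card ^ (s - 1) * ((∑ v ∈ S, f v ^ s) * ∑ v ∈ S, f v) := by ring
      _ ≤ S.card ^ (s - 1) * (S.card * ∑ v ∈ S, f v ^ s * f v) := Nat.mul_le_mul_left _ h1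
      _ = S.card ^ (s + 1 - 1) * ∑ v ∈ S, f v ^ (s + 1) := by
        rw [h2, pow_succ]
        simp only [pow_succ]
        ring

theorem MO_card {V : Type} [Fintype V] (T : Finset V) (s : ℕ) :
    (Finset.univ.filter fun u : Fin s → V => ∀ i, u i ∈ T).card = T.card ^ s := by
  have : (Finset.univ.filter fun u : Fin s → V => ∀ i, u i ∈ T) =
      Fintype.piFinset fun _ : Fin s => T := by
    ext u
    simp
  rw [this, Fintype.card_piFinset]
  simp

theorem MO : MO_stmt := by
  intro V _ L s hs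
  set N := Fintype.card V with hN
  have h1 : ∑ u : Fin s → V, (Finset.univ.filter fun v => ∀ i, u i ∈ L v).card =
      ∑ v, (L v).card ^ s := by
    simp only [Finset.card_filter]
    rw [Finset.sum_comm]
    refine Finset.sum_congr rfl fun v _ => ?_
    rw [← Finset.card_filter, MO_card]
  have h2 : ∑ u : Fin s → V, (Finset.univ.filter fun v => ∀ i, u i ∈ L v).card ^ 2 =
      ∑ v, ∑ v', (L v ∩ L v').card ^ s := by
    have h3 : ∀ u : Fin s → V, (Finset.univ.filter fun v => ∀ i, u i ∈ L v).card ^ 2 =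
        ∑ v, ∑ v', if ∀ i, u i ∈ L v ∩ L v' then 1 else 0 := by
      intro u
      rw [sq, Finset.card_filter, Finset.sum_mul_sum]
      refine Finset.sum_congr rfl fun v _ => Finset.sum_congr rfl fun v' _ => ?_
      by_cases ha : ∀ i, u i ∈ L v
      · by_cases hb : ∀ i, u i ∈ L v'
        · have hc : ∀ i, u i ∈ L v ∩ L v' := fun i => Finset.mem_inter.2 ⟨ha i, hb i⟩
          rw [if_pos ha, if_pos hb, if_pos hc, Nat.one_mul]
        · have hc : ¬ ∀ i, u i ∈ L v ∩ L v' :=
            fun h => hb fun i => (Finset.mem_inter.1 (h i)).2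
          rw [if_neg hb, if_neg hc, Nat.mul_zero]
      · have hc : ¬ ∀ i, u i ∈ L v ∩ L v' :=
          fun h => ha fun i => (Finset.mem_inter.1 (h i)).1
        rw [if_neg ha, if_neg hc, Nat.zero_mul]
    rw [Finset.sum_congr rfl fun u _ => h3 u, Finset.sum_comm]
    refine Finset.sum_congr rfl fun v _ => ?_
    rw [Finset.sum_comm]
    refine Finset.sum_congr rfl fun v' _ => ?_
    rw [← Finset.card_filter, MO_card]
  have h4 : (∑ v, (L v).card ^ s) ^ 2 ≤ N ^ s * ∑ v, ∑ v', (L v ∩ L v').card ^ s := by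
    rw [← h1, ← h2]
    have h5 := sq_sum_le_card_mul_sum_sq (s := (Finset.univ : Finset (Fin s → V)))
      (f := fun u : Fin s → V => (Finset.univ.filter fun v => ∀ i, u i ∈ L v).card)
    have h6 : (Finset.univ : Finset (Fin s → V)).card = N ^ s := by
      rw [Finset.card_univ, Fintype.card_fun, Fintype.card_fin]
    rw [h6] at h5
    exact h5
  have h7 := MO_pow Finset.univ (fun v => (L v).card) s hs
  rw [Finset.card_univ] at h7
  have h8 : 3 * s - 2 = (s - 1) * 2 + s := by omega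
  calc (∑ v, (L v).card) ^ (2 * s) = ((∑ v, (L v).card) ^ s) ^ 2 := by
        rw [← pow_mul, mul_comm]
    _ ≤ (N ^ (s - 1) * ∑ v, (L v).card ^ s) ^ 2 := Nat.pow_le_pow_left h7 2
    _ = N ^ ((s - 1) * 2) * (∑ v, (L v).card ^ s) ^ 2 := by
        rw [mul_pow, ← pow_mul]
    _ ≤ N ^ ((s - 1) * 2) * (N ^ s * ∑ v, ∑ v', (L v ∩ L v').card ^ s) :=
        Nat.mul_le_mul_left _ h4
    _ = N ^ (3 * s - 2) * ∑ v, ∑ v', (L v ∩ L v').card ^ s := by
        rw [h8, pow_add]
        ring

end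

end Pool.Agent.KS
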